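import Pool.Agent.K1H73.ON.Stm

/-!
Project ON (helper73), piece TG: the modification around the exit.
-/

set_option autoImplicit false

namespace Pool.Agent.K1H65.ON

open Finset Pool.Agent.K1H73.ON

theorem mem_xs (T : Finset V) (e : Sym2 V) :
    e ∈ xs T ↔ Odd ((T.filter (fun c => e ∈ hex c)).card) := by
  classical
  induction T using Finset.induction_on with
  | empty => simp [xs]
  | insert c T hc ih =>
    have h1 : xs (insert c T) = symmDiff (hex c) (xs T) := Finset.fold_insert hc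
    rw [h1, Finset.mem_symmDiff, ih, Finset.filter_insert]
    by_cases h : e ∈ hex c
    · rw [if_pos h, Finset.card_insert_of_notMem (by simp [hc])]
      simp [h, Nat.odd_add_one]
    · rw [if_neg h]
      simp [h]

set_option maxRecDepth 100000 in
theorem par : ∀ (J : Fin 6 → Bool) (j : Fin 6),
    Odd ((univ.filter (fun i : Fin 6 => J i = true ∧
      (j.val = i.val ∨ j.val = (i.val + 1) % 6))).card) ↔ xor (J j) (J (j + 5)) = true := by
  decide

theorem nb_inj (c : V) : Function.Injective (fun i : Fin 6 => nb c i.val) := by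
  intro i j h
  fin_cases i <;> fin_cases j <;> simp [nb] at h ⊢

theorem build (ht : HT) (c : V) (hc : Even (c.1 + c.2)) (J : Fin 6 → Bool) :
    ∃ T : Finset V, T ⊆ around c ∧ (∀ c' ∈ T, ∃ i : Fin 6, J i = true ∧ c' = nb c i.val) ∧
      ∀ j : Fin 6, out c j.val ∈ xs T ↔ xor (J j) (J (j + 5)) = true := by
  classical
  refine ⟨(univ.filter (fun i : Fin 6 => J i = true)).image (fun i : Fin 6 => nb c i.val),
    ?_, ?_, ?_⟩
  · intro x hx
    rw [mem_image] at hx
    obtain ⟨i, -, rfl⟩ := hx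
    fin_cases i <;> simp [nb, around]
  · intro x hx
    rw [mem_image] at hx
    obtain ⟨i, hi, rfl⟩ := hx
    exact ⟨i, (mem_filter.1 hi).2, rfl⟩
  · intro j
    rw [mem_xs, Finset.filter_image, Finset.card_image_of_injective _ (nb_inj c),
      Finset.filter_filter, ← par J j]
    have h1 : (univ.filter (fun i : Fin 6 => J i = true ∧ out c j.val ∈ hex (nb c i.val))) =
        (univ.filter (fun i : Fin 6 => J i = true ∧
          (j.val = i.val ∨ j.val = (i.val + 1) % 6))) := by
      apply Finset.filter_congr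
      intro i _
      rw [ht c i.val j.val i.isLt j.isLt hc]
    rw [h1]

/-- the parity in terms of booleans -/
theorem parity (b : Fin 6 → Bool) (P : ℕ → Prop) (hb : ∀ j : Fin 6, b j = true ↔ P j.val)
    (h : Even (Set.ncard {j : ℕ | j < 6 ∧ P j})) :
    xor (b 0) (xor (b 1) (xor (b 2) (xor (b 3) (xor (b 4) (b 5))))) = false := by
  classical
  have h1 : {j : ℕ | j < 6 ∧ P j} = (((range 6).filter P : Finset ℕ) : Set ℕ) := by
    ext j
    simp
  rw [h1, Set.ncard_coe_finset, Finset.card_filter] at h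
  simp only [Finset.sum_range_succ, Finset.sum_range_zero] at h
  have e0 := hb 0
  have e1 := hb 1
  have e2 := hb 2
  have e3 := hb 3
  have e4 := hb 4
  have e5 := hb 5
  simp only [Fin.val_zero, Fin.val_one, Fin.val_two, Fin.isValue] at e0 e1 e2 e3 e4 e5
  have f3 : b 3 = true ↔ P 3 := e3
  have f4 : b 4 = true ↔ P 4 := e4
  have f5 : b 5 = true ↔ P 5 := e5
  simp only [← e0, ← e1, ← e2, ← f3, ← f4, ← f5] at h
  generalize b 0 = b0 at h ⊢
  generalize b 1 = b1 at h ⊢
  generalize b 2 = b2 at h ⊢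
  generalize b 3 = b3 at h ⊢
  generalize b 4 = b4 at h ⊢
  generalize b 5 = b5 at h ⊢
  clear e0 e1 e2 e3 e4 e5 f3 f4 f5 h1 hb
  revert h
  cases b0 <;> cases b1 <;> cases b2 <;> cases b3 <;> cases b4 <;> cases b5 <;> decide

theorem solveU (b0 b1 b2 b3 b4 b5 : Bool)
    (h : xor b0 (xor b1 (xor b2 (xor b3 (xor b4 b5)))) = false) (hb : b1 = true) :
    ∃ J2 J3 J4 J5 : Bool, xor b0 (xor false J5) = false ∧ xor b1 (xor false false) = true ∧
      xor b2 (xor J2 false) = false ∧ xor b3 (xor J3 J2) = true ∧ xor b4 (xor J4 J3) = false ∧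
      xor b5 (xor J5 J4) = false := by
  refine ⟨b2, xor b3 (xor b2 true), xor b4 (xor b3 (xor b2 true)),
    xor b5 (xor b4 (xor b3 (xor b2 true))), ?_⟩
  revert h hb
  cases b0 <;> cases b1 <;> cases b2 <;> cases b3 <;> cases b4 <;> cases b5 <;> simp

theorem solveR (b0 b1 b2 b3 b4 b5 : Bool)
    (h : xor b0 (xor b1 (xor b2 (xor b3 (xor b4 b5)))) = false) (hb : b0 = true) :
    ∃ J2 J3 J4 : Bool, xor b0 (xor false false) = true ∧ xor b1 (xor b1 false) = false ∧
      xor b2 (xor J2 b1) = true ∧ xor b3 (xor J3 J2) = false ∧ xor b4 (xor J4 J3) = false ∧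
      xor b5 (xor false J4) = false := by
  refine ⟨xor b2 (xor b1 true), xor b3 (xor b2 (xor b1 true)),
    xor b4 (xor b3 (xor b2 (xor b1 true))), ?_⟩
  revert h hb
  cases b0 <;> cases b1 <;> cases b2 <;> cases b3 <;> cases b4 <;> cases b5 <;> simp

theorem solveL (b0 b1 b2 b3 b4 b5 : Bool)
    (h : xor b0 (xor b1 (xor b2 (xor b3 (xor b4 b5)))) = false) (hb : b2 = true) :
    ∃ J3 J4 J5 : Bool, xor b0 (xor b1 J5) = false ∧ xor b1 (xor false b1) = false ∧
      xor b2 (xor false false) = true ∧ xor b3 (xor J3 false) = false ∧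
      xor b4 (xor J4 J3) = true ∧ xor b5 (xor J5 J4) = false := by
  refine ⟨b3, xor b4 (xor b3 true), xor b5 (xor b4 (xor b3 true)), ?_⟩
  revert h hb
  cases b0 <;> cases b1 <;> cases b2 <;> cases b3 <;> cases b4 <;> cases b5 <;> simp

theorem t_TG (h1 : HA) (h2 : HP) (h3 : HT) (h4 : HE) (h5 : XS) (h6 : GEO) : TG := by
  classical
  intro K D a b ω k hs hcfg hk1 hk2 hex
  obtain ⟨hev, hcor, -, -, -, -⟩ := h6 K D a b ω k hs hcfg hk1 hk2 hex
  have hHE := h4 K D a b ω k hs hcfg hk1 hk2 hex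
  simp only at hHE
  generalize hx a ω k = c at hev hcor hHE ⊢
  have hab : ∀ j < 6, cor c j ≠ a ∧ cor c j ≠ b := fun j hj =>
    ⟨(hcor j hj).2.2.2.1, (hcor j hj).2.2.2.2⟩
  obtain ⟨bb, hbb⟩ : ∃ bb : Fin 6 → Bool, ∀ j : Fin 6, bb j = true ↔ out c j.val ∈ ω :=
    ⟨fun j => decide (out c j.val ∈ ω), fun j => by simp⟩
  have hpar := parity bb (fun j => out c j ∈ ω) hbb (h2 D a b ω c hcfg hev hab)
  have final : ∀ (i : ℕ) (_ : i < 6) (J : Fin 6 → Bool),
      (∀ j : Fin 6, J j = true → (Even ((nb c j.val).1 + (nb c j.val).2) ∧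
        ∀ i < 6, cor (nb c j.val) i ∈ D ∧ cor (nb c j.val) i ∉ R k ∧
          cor (nb c j.val) i ∈ R (k + 3) ∧ cor (nb c j.val) i ≠ a ∧ cor (nb c j.val) i ≠ b)) →
      (∀ j : Fin 6, xor (bb j) (xor (J j) (J (j + 5))) = true ↔
        (j.val = i ∨ j.val = (i + 2) % 6)) →
      ∃ T ⊆ around c, (∀ c ∈ T, Even (c.1 + c.2) ∧
        ∀ i < 6, cor c i ∈ D ∧ cor c i ∉ R k ∧ cor c i ∈ R (k + 3) ∧ cor c i ≠ a ∧
          cor c i ≠ b) ∧ Flip c (symmDiff ω (xs T)) := by
    intro i hi J hJ hx
    obtain ⟨T, t1, t2, t3⟩ := build h3 c hev J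
    have hgood : ∀ c ∈ T, Even (c.1 + c.2) ∧
        ∀ i < 6, cor c i ∈ D ∧ cor c i ∉ R k ∧ cor c i ∈ R (k + 3) ∧ cor c i ≠ a ∧
          cor c i ≠ b := by
      intro c' hc'
      obtain ⟨j, hj, rfl⟩ := t2 c' hc'
      exact hJ j hj
    refine ⟨T, t1, hgood, i, hi, ?_⟩
    apply h1 D a b (symmDiff ω (xs T)) c i _ hi hev hab
    · intro j hj
      have e1 := hbb ⟨j, hj⟩
      have e2 := t3 ⟨j, hj⟩
      have e3 := hx ⟨j, hj⟩
      simp only at e1 e2 e3
      rw [Finset.mem_symmDiff, ← e1, e2, ← e3]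
      generalize bb ⟨j, hj⟩ = x
      generalize xor (J ⟨j, hj⟩) (J (⟨j, hj⟩ + 5)) = y
      cases x <;> cases y <;> simp
    · exact (h5 T).2.2 D a b ω hcfg fun c' hc' => ⟨(hgood c' hc').1, fun i hi =>
        ⟨((hgood c' hc').2 i hi).1, ((hgood c' hc').2 i hi).2.2.2.1,
          ((hgood c' hc').2 i hi).2.2.2.2⟩⟩
  rcases hHE with ⟨g1, g2⟩ | ⟨g1, g2, g3⟩ | ⟨g1, g2, g3⟩
  · obtain ⟨J2, J3, J4, J5, e0, e1, e2, e3, e4, e5⟩ :=
      solveU (bb 0) (bb 1) (bb 2) (bb 3) (bb 4) (bb 5) hpar ((hbb 1).2 g1)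
    refine final 1 (by norm_num) ![false, false, J2, J3, J4, J5] ?_ ?_
    · intro j hj
      fin_cases j
      · exact absurd hj (by simp)
      · exact absurd hj (by simp)
      · exact g2 (nb c 2) (by simp)
      · exact g2 (nb c 3) (by simp)
      · exact g2 (nb c 4) (by simp)
      · exact g2 (nb c 5) (by simp)
    · intro j
      fin_cases j
      · show xor (bb 0) (xor false J5) = true ↔ _
        rw [e0]; simp
      · show xor (bb 1) (xor false false) = true ↔ _
        rw [e1]; simp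
      · show xor (bb 2) (xor J2 false) = true ↔ _
        rw [e2]; simp
      · show xor (bb 3) (xor J3 J2) = true ↔ _
        rw [e3]; simp
      · show xor (bb 4) (xor J4 J3) = true ↔ _
        rw [e4]; simp
      · show xor (bb 5) (xor J5 J4) = true ↔ _
        rw [e5]; simp
  · obtain ⟨J2, J3, J4, e0, e1, e2, e3, e4, e5⟩ :=
      solveR (bb 0) (bb 1) (bb 2) (bb 3) (bb 4) (bb 5) hpar ((hbb 0).2 g1)
    refine final 0 (by norm_num) ![false, bb 1, J2, J3, J4, false] ?_ ?_
    · intro j hj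
      fin_cases j
      · exact absurd hj (by simp)
      · have hj' : bb 1 = true := hj
        have := (hbb 1).1 hj'
        rcases g3 with g3 | g3
        · exact absurd this g3
        · exact g3
      · exact g2 (nb c 2) (by simp)
      · exact g2 (nb c 3) (by simp)
      · exact g2 (nb c 4) (by simp)
      · exact absurd hj (by simp)
    · intro j
      fin_cases j
      · show xor (bb 0) (xor false false) = true ↔ _
        rw [e0]; simp
      · show xor (bb 1) (xor (bb 1) false) = true ↔ _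
        rw [e1]; simp
      · show xor (bb 2) (xor J2 (bb 1)) = true ↔ _
        rw [e2]; simp
      · show xor (bb 3) (xor J3 J2) = true ↔ _
        rw [e3]; simp
      · show xor (bb 4) (xor J4 J3) = true ↔ _
        rw [e4]; simp
      · show xor (bb 5) (xor false J4) = true ↔ _
        rw [e5]; simp
  · obtain ⟨J3, J4, J5, e0, e1, e2, e3, e4, e5⟩ :=
      solveL (bb 0) (bb 1) (bb 2) (bb 3) (bb 4) (bb 5) hpar ((hbb 2).2 g1)
    refine final 2 (by norm_num) ![bb 1, false, false, J3, J4, J5] ?_ ?_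
    · intro j hj
      fin_cases j
      · have hj' : bb 1 = true := hj
        have := (hbb 1).1 hj'
        rcases g3 with g3 | g3
        · exact absurd this g3
        · exact g3
      · exact absurd hj (by simp)
      · exact absurd hj (by simp)
      · exact g2 (nb c 3) (by simp)
      · exact g2 (nb c 4) (by simp)
      · exact g2 (nb c 5) (by simp)
    · intro j
      fin_cases j
      · show xor (bb 0) (xor (bb 1) J5) = true ↔ _
        rw [e0]; simp
      · show xor (bb 1) (xor false (bb 1)) = true ↔ _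
        rw [e1]; simp
      · show xor (bb 2) (xor false false) = true ↔ _
        rw [e2]; simp
      · show xor (bb 3) (xor J3 false) = true ↔ _
        rw [e3]; simp
      · show xor (bb 4) (xor J4 J3) = true ↔ _
        rw [e4]; simp
      · show xor (bb 5) (xor J5 J4) = true ↔ _
        rw [e5]; simp

end Pool.Agent.K1H65.ON
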